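import Pool.Agent.TH204.TP.P5
import Pool.Agent.H373R2.T7.LamZ2

/-!
A lower bound for the local product.
-/

set_option autoImplicit false

namespace Pool.Agent.TH204.TP

open Finset Polynomial Filter
open Pool.Agent.H373R2.T7 (pz Vz mem_pz Vz_inv_small)
open Pool.Agent.TH892.SW (Vz_pos)
open Pool.Agent.TH204.WR (rho hh V_low)

theorem hh_low (E : ℕ) : ∃ X0 : ℕ, ∀ x : ℕ, X0 ≤ x → ∀ z : ℕ, 1 ≤ z → (z : ℝ) ≤ Real.log x ^ E →
    ∀ (F : ℤ[X]) (t : ℤ), F.natDegree ≤ 3 → (∀ p ∈ pz z, rho F t p < p) →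
    1 / (3000000 * √(Real.log x)) ≤ hh F t z := by
  obtain ⟨N0, hN0⟩ := Vz_inv_small (12 * E)
  have hlim : Tendsto (fun x : ℕ => Real.log (x : ℝ)) atTop atTop :=
    Real.tendsto_log_atTop.comp (tendsto_natCast_atTop_atTop (R := ℝ))
  obtain ⟨X0, hX0⟩ := eventually_atTop.1 (hlim.eventually_ge_atTop ((1 + Real.log (N0 + 1)) ^ 12))
  refine ⟨X0, fun x hx z hz hzE F t hF hrho => ?_⟩
  have hL := hX0 x hx
  obtain ⟨L, hLd⟩ : ∃ L, L = Real.log x := ⟨_, rfl⟩
  rw [← hLd] at hL hzE ⊢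
  have hlN : 0 ≤ Real.log ((N0 : ℝ) + 1) := Real.log_nonneg (by
    have : (0 : ℝ) ≤ N0 := Nat.cast_nonneg _
    linarith)
  have hL1 : 1 ≤ L := by
    refine le_trans ?_ hL
    exact one_le_pow₀ (by linarith)
  have hL0 : 0 < L := by linarith
  obtain ⟨ω, hω⟩ : ∃ ω, ω = L ^ ((1 : ℝ) / 12) := ⟨_, rfl⟩
  have hω12 : ω ^ 12 = L := by
    rw [hω, ← Real.rpow_natCast, ← Real.rpow_mul hL0.le]
    norm_num
  have hω0 : 0 ≤ ω := by rw [hω]; positivity
  have hω1 : 1 + Real.log ((N0 : ℝ) + 1) ≤ ω := by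
    rw [← hω12] at hL
    exact le_of_pow_le_pow_left₀ (by norm_num) hω0 hL
  have hω1' : 1 ≤ ω := by linarith
  obtain ⟨N, hN⟩ : ∃ N, N = ⌈Real.exp ω⌉₊ := ⟨_, rfl⟩
  have hNle : Real.exp ω ≤ N := by rw [hN]; exact Nat.le_ceil _
  have hexp1 : 1 ≤ Real.exp ω := Real.one_le_exp hω0
  have hNge : (N : ℝ) ≤ 2 * Real.exp ω := by
    have := Nat.ceil_lt_add_one (Real.exp_pos ω).le
    rw [← hN] at this
    linarith
  have hNN0 : N0 ≤ N := by
    have h1 : (N0 : ℝ) + 1 ≤ Real.exp ω := by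
      rw [← Real.log_le_iff_le_exp (by positivity)]
      linarith
    have : (N0 : ℝ) ≤ N := by linarith
    exact_mod_cast this
  have hlog1 : ω ≤ Real.log N := by
    rw [Real.le_log_iff_exp_le (by linarith [Real.exp_pos ω])]
    exact hNle
  have hlog2 : Real.log N ≤ 2 * ω := by
    have h1 : Real.log N ≤ Real.log (2 * Real.exp ω) := Real.log_le_log (by linarith [Real.exp_pos ω]) hNge
    rw [Real.log_mul (by norm_num) (Real.exp_pos ω).ne', Real.log_exp] at h1
    have := Real.log_two_lt_d9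
    linarith
  have hV := hN0 N hNN0 z hz (by
    refine hzE.trans ?_
    rw [← hω12, ← pow_mul]
    exact pow_le_pow_left₀ hω0 hlog1 _)
  have hVpos := Vz_pos hz
  have hV2 : (Vz z)⁻¹ ≤ 2 * ω := hV.trans hlog2
  have hVlow : 1 / (2 * ω) ≤ Vz z := by
    rw [one_div]
    exact inv_le_of_inv_le₀ hVpos hV2
  have hV1 : 1 ≤ (Vz z)⁻¹ := by
    rw [one_le_inv₀ hVpos]
    unfold Vz
    apply prod_le_one
    · intro p hp
      have hp2 : (2 : ℝ) ≤ p := by exact_mod_cast (mem_pz.1 hp).2.two_le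
      rw [sub_nonneg, div_le_one (by linarith)]
      linarith
    · intro p hp
      have : 0 ≤ 1 / (p : ℝ) := by positivity
      linarith
  have hlow := V_low F t z 3 (by norm_num) hF hrho
  have hsq : ω ^ 6 = √L := by
    rw [← hω12, show ω ^ 12 = (ω ^ 6) ^ 2 by ring, Real.sqrt_sq (by positivity)]
  calc 1 / (3000000 * √L) ≤ 1 / (2985984 * √L) := by
        apply one_div_le_one_div_of_le
        · have := Real.sqrt_pos.2 hL0
          linarith
        · have := Real.sqrt_nonneg L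
          linarith
    _ = 1 * ((1 / 6) ^ 6 * (1 / (2 * ω)) ^ 6) := by
        rw [← hsq]
        have : ω ≠ 0 := by linarith
        field_simp
        norm_num
    _ ≤ (Vz z)⁻¹ * ((1 / (2 * ((3 : ℕ) : ℝ))) ^ (2 * 3) * Vz z ^ (2 * 3)) := by
        apply mul_le_mul hV1 _ (by positivity) (by positivity)
        apply mul_le_mul (by norm_num) _ (by positivity) (by positivity)
        exact pow_le_pow_left₀ (by positivity) hVlow 6
    _ ≤ hh F t z := by
        unfold hh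
        exact mul_le_mul_of_nonneg_left hlow (by positivity)

end Pool.Agent.TH204.TP
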