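import Pool.Agent.TH204.WR.W5

/-!
For a cubic polynomial with large differences on a block: for all but few `t` the sum of the
difference function over the values `P n + t` in `[1,Y]`, `n` in the block, is small, uniformly in
the polynomial.
-/

set_option autoImplicit false

namespace Pool.Agent.TH204.TP

open Finset Filter
open Pool.Agent.H373R2.T7 (pz Vz lamz)
open Pool.Agent.TH892.SW (ff sup_ff sq_ff)
open Pool.Agent.TH204.WR (rt rt_pow evt_log_pow evt_log_ge second_weyl arith_T TT Ph_diff)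

open Polynomial in
theorem TT_block (U1 U2 κ C : ℕ) :
    ∃ B E1 : ℕ, ∀ E : ℕ, E1 ≤ E → ∃ X0 : ℕ, ∀ x : ℕ, X0 ≤ x → ∀ P : ℤ[X], P.natDegree = 3 → ∀ M g Y : ℕ,
    M = ⌊rt 2 x / Real.log x ^ κ⌋₊ → rt 2 x ^ 2 / Real.log x ^ κ ≤ g →
    (∀ n δ : ℕ, n + δ ≤ M → (δ : ℤ) * g ≤ |P.eval ((n + δ : ℕ) : ℤ) - P.eval (n : ℤ)|) →
    rt 2 x ^ 2 * Real.log x ^ B ≤ Y → (Y : ℝ) ≤ x * Real.log x ^ C →
    (((Icc (-(x : ℤ)) x).filter (fun t : ℤ => (Y : ℝ) / (rt 2 x ^ 2 * Real.log x ^ U1) <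
      |TT (fun n => P.eval (n : ℤ)) 0 M Y (ff ⌊Real.log x ^ E⌋₊) t|)).card : ℝ) ≤ x / Real.log x ^ U2 := by
  classical
  obtain ⟨k, hk2⟩ : ∃ k, k = 2 := ⟨_, rfl⟩
  have hk : 1 ≤ k := by omega
  obtain ⟨c, m, hc, hsec⟩ := second_weyl k hk
  obtain ⟨W, hW⟩ : ∃ W, W = 2 * U1 + U2 + κ := ⟨_, rfl⟩
  obtain ⟨a, ha⟩ : ∃ a, a = 0 * k + 0 + 3 + W := ⟨_, rfl⟩
  obtain ⟨A, hA⟩ : ∃ A, A = 2 * (m * a) + 0 + 5 + W := ⟨_, rfl⟩
  obtain ⟨B, hB⟩ : ∃ B, B = 0 + 3 + W := ⟨_, rfl⟩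
  obtain ⟨B0, hB0⟩ := sup_ff A
  refine ⟨B, B0 + 2, fun E hE => ?_⟩
  obtain ⟨N1, hN1⟩ := hB0 (E + 1)
  obtain ⟨N2, hN2⟩ := sq_ff (E + 1)
  obtain ⟨e1, he1⟩ : ∃ e1, e1 = 2 * (m * a) + 3 + W + C + κ + 1 := ⟨_, rfl⟩
  have hev : ∀ᶠ x : ℕ in atTop, (5000 * (c : ℝ) ^ 2 * 2 ^ k + 2 ^ (A + E + B0 + 20) + N1 + N2 + 10) ≤ Real.log x ∧
      Real.log x ^ e1 ≤ (x : ℝ) ^ ((1 : ℝ) / ((k : ℝ) + 1)) := by
    filter_upwards [evt_log_ge (5000 * (c : ℝ) ^ 2 * 2 ^ k + 2 ^ (A + E + B0 + 20) + N1 + N2 + 10),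
      evt_log_pow e1 ((1 : ℝ) / ((k : ℝ) + 1)) (by positivity)] with x h1 h2
    exact ⟨h1, h2⟩
  obtain ⟨X0, hX0⟩ := eventually_atTop.1 hev
  refine ⟨max X0 1, fun x hx P hP M g Y hM hg hgap0 hY1 hY2 => ?_⟩
  obtain ⟨hL, hLS⟩ := hX0 x ((le_max_left _ _).trans hx)
  have hx1 : 1 ≤ x := (le_max_right _ _).trans hx
  have hSr : rt k x = (x : ℝ) ^ ((1 : ℝ) / ((k : ℝ) + 1)) := rfl
  rw [← hSr] at hLS
  have hSp := rt_pow k x
  rw [← hk2] at hM hg hY1 ⊢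
  clear hev hX0 hSr
  generalize hSd : rt k x = S at *
  generalize hLd : Real.log x = L at *
  obtain ⟨z, hz⟩ : ∃ z, z = ⌊L ^ E⌋₊ := ⟨_, rfl⟩
  have hc1 : (1 : ℝ) ≤ c := by exact_mod_cast hc
  have h2k : (1 : ℝ) ≤ 2 ^ k := one_le_pow₀ (by norm_num)
  have hN1r : (0 : ℝ) ≤ N1 := Nat.cast_nonneg _
  have hN2r : (0 : ℝ) ≤ N2 := Nat.cast_nonneg _
  have h5000 : (0 : ℝ) ≤ 5000 * (c : ℝ) ^ 2 * 2 ^ k := by positivity
  have h2p : (0 : ℝ) < 2 ^ (A + E + B0 + 20) := by positivity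
  have hp20 : ∀ a b : ℕ, a + b ≤ A + E + B0 + 20 → (2 : ℝ) ^ a * 2 ^ b ≤ L := by
    intro a b hab
    rw [← pow_add]
    have := pow_le_pow_right₀ (show (1 : ℝ) ≤ 2 by norm_num) hab
    linarith
  have hL1024 : 1024 ≤ L := by
    have := hp20 10 0 (by omega)
    norm_num at this
    exact this
  have hL0 : 0 < L := by linarith
  have hL1 : 1 ≤ L := by linarith
  have hLp0 : ∀ n : ℕ, 0 < L ^ n := fun n => by positivity
  have hLp : ∀ n : ℕ, 1 ≤ L ^ n := fun n => one_le_pow₀ hL1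
  have hLL : ∀ {i j : ℕ}, i ≤ j → L ^ i ≤ L ^ j := fun h => pow_le_pow_right₀ hL1 h
  have hxr : (1 : ℝ) ≤ x := by exact_mod_cast hx1
  have hx0 : (0 : ℝ) < x := by linarith
  have hLS' : ∀ i : ℕ, i ≤ e1 → L ^ i ≤ S := fun i hi => (hLL hi).trans hLS
  have hLS1 : L ≤ S := by simpa using hLS' 1 (by omega)
  have hS1 : 1 ≤ S := hL1.trans hLS1
  have hS0 : 0 < S := by linarith
  have hSx : S ≤ x := by rw [← hSp]; exact le_self_pow₀ hS1 (by omega)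
  have hSk1 : S ≤ S ^ k := le_self_pow₀ hS1 (by omega)
  have hSk0 : 0 < S ^ k := by positivity
  have hSY : S ^ k ≤ Y := by
    refine le_trans ?_ hY1
    exact le_mul_of_one_le_right hSk0.le (hLp B)
  have hYS : S ≤ Y := hSk1.trans hSY
  have hY0 : (0 : ℝ) < Y := by linarith
  have hYn : 1 ≤ Y := by exact_mod_cast (hS1.trans hYS)
  -- log Y
  obtain ⟨ℓ, hℓ⟩ : ∃ ℓ, ℓ = Real.log Y := ⟨_, rfl⟩
  have hlogS : L ≤ 2 * (k * Real.log S) := by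
    have h1 : L = (k + 1) * Real.log S := by
      rw [← hLd, ← hSp, Real.log_pow]
      push_cast; ring
    have h2 : 0 ≤ Real.log S := Real.log_nonneg hS1
    have h3 : (1 : ℝ) ≤ k := by exact_mod_cast hk
    rw [h1]
    have h4 := mul_nonneg (sub_nonneg.2 h3) h2
    linarith
  have hℓ1 : L / 2 ≤ ℓ := by
    have h1 := Real.log_le_log hSk0 hSY
    rw [Real.log_pow, ← hℓ] at h1
    linarith
  have hℓ2 : ℓ ≤ 2 * L := by
    have h1 : (Y : ℝ) ≤ (x : ℝ) ^ 2 := by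
      calc (Y : ℝ) ≤ x * L ^ C := hY2
        _ ≤ x * x := by
            apply mul_le_mul_of_nonneg_left _ hx0.le
            exact (hLS' C (by omega)).trans hSx
        _ = (x : ℝ) ^ 2 := by ring
    have h2 := Real.log_le_log hY0 h1
    rw [Real.log_pow, hLd, ← hℓ] at h2
    exact_mod_cast h2
  have hℓ0 : 0 < ℓ := by linarith
  have hYN : (N1 : ℝ) + N2 ≤ Y := by
    have : L ≤ Y := hLS1.trans hYS
    linarith
  have hYN1 : N1 ≤ Y := by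
    have : (N1 : ℝ) ≤ Y := by linarith
    exact_mod_cast this
  have hYN2 : N2 ≤ Y := by
    have : (N2 : ℝ) ≤ Y := by linarith
    exact_mod_cast this
  -- z
  have hzle : (z : ℝ) ≤ L ^ E := by rw [hz]; exact Nat.floor_le (by positivity)
  have hLE2 : 2 ≤ L ^ E := by
    have : L ≤ L ^ E := le_self_pow₀ hL1 (by omega)
    linarith
  have hzge : L ^ E / 2 ≤ z := by
    have := Nat.lt_floor_add_one (L ^ E)
    rw [← hz] at this
    linarith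
  have hz1 : 1 ≤ z := by
    have : (1 : ℝ) ≤ z := by linarith
    exact_mod_cast this
  have hzB : ℓ ^ B0 ≤ z := by
    calc ℓ ^ B0 ≤ (2 * L) ^ B0 := pow_le_pow_left₀ hℓ0.le hℓ2 _
      _ = 2 ^ B0 * L ^ B0 := mul_pow _ _ _
      _ ≤ (L / 2) * L ^ B0 := by
          apply mul_le_mul_of_nonneg_right _ (hLp0 _).le
          have := hp20 B0 1 (by omega)
          linarith
      _ ≤ (L * L / 2) * L ^ B0 := by
          apply mul_le_mul_of_nonneg_right _ (hLp0 _).le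
          have := mul_le_mul_of_nonneg_left hL1 hL0.le
          linarith
      _ = L ^ (B0 + 2) / 2 := by ring
      _ ≤ L ^ E / 2 := by
          have := hLL hE
          linarith
      _ ≤ z := hzge
  have hzE : (z : ℝ) ≤ ℓ ^ (E + 1) := by
    calc (z : ℝ) ≤ L ^ E := hzle
      _ ≤ (2 * ℓ) ^ E := pow_le_pow_left₀ hL0.le (by linarith) _
      _ = 2 ^ E * ℓ ^ E := mul_pow _ _ _
      _ ≤ ℓ * ℓ ^ E := by
          apply mul_le_mul_of_nonneg_right _ (by positivity)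
          have := hp20 E 1 (by omega)
          linarith
      _ = ℓ ^ (E + 1) := by ring
  have hsup := hN1 Y hYN1 z (by rw [← hℓ]; exact hzB) (by rw [← hℓ]; exact hzE)
  obtain ⟨-, hsq⟩ := hN2 Y hYN2 z hz1 (by rw [← hℓ]; exact hzE)
  rw [← hℓ] at hsup hsq
  -- the range
  obtain ⟨R, hR⟩ : ∃ R, R = S / L ^ κ := ⟨_, rfl⟩
  rw [← hR] at hM
  have hRL : ∀ i : ℕ, i + κ ≤ e1 → L ^ i ≤ R := by
    intro i hi
    rw [hR, le_div_iff₀ (hLp0 _), ← pow_add]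
    exact hLS' _ hi
  have hR1 : 1 ≤ R := by simpa using hRL 0 (by omega)
  have hRL1 : L ≤ R := by simpa using hRL 1 (by omega)
  have hR0 : 0 < R := by linarith
  have hRS : R ≤ S := by rw [hR]; exact div_le_self hS0.le (hLp _)
  have hM3 : (M : ℝ) ≤ R * L ^ 0 := by rw [hM, pow_zero, mul_one]; exact Nat.floor_le hR0.le
  have hMR : (M : ℝ) ≤ R := by simpa using hM3
  have hM1 : R / 2 ≤ M := by
    have := Nat.lt_floor_add_one R
    rw [← hM] at this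
    linarith
  have hM2 : (M : ℝ) + 1 ≤ 2 * (R * L ^ 0) := by
    rw [pow_zero, mul_one]
    linarith
  have hMr1 : (1 : ℝ) ≤ M := by linarith
  have hMn : 1 ≤ M := by exact_mod_cast hMr1
  -- D
  have hg0r : (0 : ℝ) < g := lt_of_lt_of_le (by positivity) hg
  have hg0 : 0 < g := by exact_mod_cast hg0r
  obtain ⟨D, hD⟩ : ∃ D, D = Y / g := ⟨_, rfl⟩
  have hRk : R ^ k ≤ g := by
    refine le_trans ?_ hg
    rw [hR, div_pow]
    apply div_le_div_of_nonneg_left hSk0.le (hLp0 _)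
    exact le_self_pow₀ (hLp κ) (by omega)
  have hDS : (D : ℝ) * R ^ k ≤ Y * L ^ (0 * k) := by
    have h1 : D * g ≤ Y := by rw [hD]; exact Nat.div_mul_le_self _ _
    have h2 : (D : ℝ) * (g : ℝ) ≤ Y := by exact_mod_cast h1
    rw [zero_mul, pow_zero, mul_one]
    exact (mul_le_mul_of_nonneg_left hRk (Nat.cast_nonneg _)).trans h2
  have hgap : ∀ n δ, 0 ≤ n → n + δ ≤ M → D < δ →
      (Y : ℤ) ≤ |(fun n : ℕ => P.eval (n : ℤ)) (n + δ) - (fun n : ℕ => P.eval (n : ℤ)) n| := by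
    intro n δ _ hn hδ
    have h1 := hgap0 n δ hn
    have h2 : Y < δ * g := by
      rw [hD, Nat.div_lt_iff_lt_mul hg0] at hδ
      exact hδ
    have h3 : (Y : ℤ) < (δ : ℤ) * (g : ℤ) := by exact_mod_cast h2
    show (Y : ℤ) ≤ |P.eval ((n + δ : ℕ) : ℤ) - P.eval (n : ℤ)|
    linarith
  -- J
  obtain ⟨w, hw⟩ : ∃ w, w = (c : ℝ) * (L ^ a) ^ m := ⟨_, rfl⟩
  have hw1 : 1 ≤ w := by
    rw [hw]
    exact one_le_mul_of_one_le_of_one_le hc1 (one_le_pow₀ (hLp a))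
  have hw0 : 0 < w := by linarith
  obtain ⟨J, hJ⟩ : ∃ J, J = ⌊(M : ℝ) ^ k / (8 * w)⌋₊ := ⟨_, rfl⟩
  have hMw : 8 * w ≤ (M : ℝ) ^ k := by
    have h1 : L ^ (m * a + 1) ≤ R := hRL _ (by
      rw [he1]
      have : m * a ≤ 2 * (m * a) := by omega
      omega)
    have h2 : w * L ≤ c * R := by
      calc w * L = c * L ^ (m * a + 1) := by rw [hw, ← pow_mul, mul_comm a m, pow_succ]; ring
        _ ≤ c * R := by gcongr
    have h3 : 16 * w * c ≤ w * L := by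
      have h5 : 16 * (c : ℝ) ≤ L := by
        have h6 : (c : ℝ) ≤ (c : ℝ) ^ 2 := le_self_pow₀ hc1 two_ne_zero
        have h7 : (c : ℝ) ^ 2 ≤ (c : ℝ) ^ 2 * 2 ^ k := le_mul_of_one_le_right (by positivity) h2k
        have h8 : 5000 * (c : ℝ) ^ 2 * 2 ^ k = 5000 * ((c : ℝ) ^ 2 * 2 ^ k) := by ring
        linarith
      calc 16 * w * c = w * (16 * c) := by ring
        _ ≤ w * L := by gcongr
    have h4 : 16 * w ≤ R := by
      have h6 : c * (16 * w) ≤ c * R := by linarith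
      exact le_of_mul_le_mul_left h6 (by linarith)
    have h5 : (M : ℝ) ≤ (M : ℝ) ^ k := le_self_pow₀ hMr1 (by omega)
    linarith
  have hJle : (J : ℝ) ≤ (M : ℝ) ^ k / (8 * w) := by rw [hJ]; exact Nat.floor_le (by positivity)
  have hJge1 : 1 ≤ J := by
    rw [hJ]
    apply Nat.le_floor
    rw [Nat.cast_one, le_div_iff₀ (by positivity), one_mul]
    exact hMw
  have hJr1 : (1 : ℝ) ≤ J := by exact_mod_cast hJge1
  have hJM : 8 * (J : ℝ) * (c * (L ^ a) ^ m) ≤ (M : ℝ) ^ k := by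
    rw [← hw]
    rw [le_div_iff₀ (by positivity)] at hJle
    linarith
  have hJge : (M : ℝ) ^ k ≤ 16 * (c * (L ^ a) ^ m) * J := by
    rw [← hw]
    have h1 : (M : ℝ) ^ k / (8 * w) < J + 1 := by rw [hJ]; exact Nat.lt_floor_add_one _
    rw [div_lt_iff₀ (by positivity)] at h1
    have h2 := mul_le_mul_of_nonneg_left hJr1 hw0.le
    have h3 : ((J : ℝ) + 1) * (8 * w) = 8 * (w * J) + 8 * w := by ring
    have h4 : 16 * w * J = 16 * (w * J) := by ring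
    rw [h3] at h1
    rw [h4]
    linarith
  have hP' : P.natDegree = k + 1 := by rw [hP, hk2]
  have hlc : P.leadingCoeff ≠ 0 := by
    apply leadingCoeff_ne_zero.2
    intro h
    rw [h, natDegree_zero] at hP
    omega
  have hsecond := hsec (((k + 1).factorial : ℤ) * P.leadingCoeff) 0 M Y D J (fun n => P.eval (n : ℤ)) (ff z)
    (Y / ℓ ^ A) (9 * Y * ℓ ^ 2) (L ^ a) (Icc (-(x : ℤ)) x)
    (mul_ne_zero (by exact_mod_cast (Nat.factorial_ne_zero _)) hlc) hMn hJge1 (hLp a) hJM hgap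
    (fun δ γ => Ph_diff k P hP' 0 δ γ) hsup hsq
  rw [← hℓ] at hsecond
  have hQ0 : 0 ≤ 9 * (Y : ℝ) * ℓ ^ 2 := by positivity
  have hQ : 9 * (Y : ℝ) * ℓ ^ 2 ≤ 36 * (Y * L ^ 2) := by
    calc 9 * (Y : ℝ) * ℓ ^ 2 ≤ 9 * Y * (2 * L) ^ 2 := by gcongr
      _ = _ := by ring
  have hSg : √(2 * (Y * (1 + ℓ) ^ 4)) * √((Y / ℓ ^ A) ^ 2 * (9 * Y * ℓ ^ 2)) ≤ Y ^ 2 * (L ^ 4 / L ^ A) := by
    rw [← Real.sqrt_mul (by positivity)]
    rw [show (Y : ℝ) ^ 2 * (L ^ 4 / L ^ A) = √((Y ^ 2 * (L ^ 4 / L ^ A)) ^ 2) by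
      rw [Real.sqrt_sq (by positivity)]]
    apply Real.sqrt_le_sqrt
    have h3 : 1 / ℓ ^ A ≤ 2 ^ A / L ^ A := by
      rw [← div_pow, div_eq_mul_inv 2 L, ← one_div_pow]
      apply pow_le_pow_left₀ (by positivity)
      rw [← div_eq_mul_inv, div_le_div_iff₀ hℓ0 hL0]
      linarith
    have h1ℓ : 1 + ℓ ≤ 4 * L := by linarith
    calc 2 * (Y * (1 + ℓ) ^ 4) * ((Y / ℓ ^ A) ^ 2 * (9 * Y * ℓ ^ 2))
        = 18 * (Y : ℝ) ^ 4 * (1 + ℓ) ^ 4 * ℓ ^ 2 * (1 / ℓ ^ A) ^ 2 := by ring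
      _ ≤ 18 * (Y : ℝ) ^ 4 * (4 * L) ^ 4 * (2 * L) ^ 2 * (2 ^ A / L ^ A) ^ 2 := by gcongr
      _ = (Y ^ 2 * (L ^ 3 / L ^ A)) ^ 2 * (18432 * (2 ^ A) ^ 2) := by ring
      _ ≤ (Y ^ 2 * (L ^ 3 / L ^ A)) ^ 2 * L ^ 2 := by
          apply mul_le_mul_of_nonneg_left _ (by positivity)
          have h4 := hp20 A 8 (by omega)
          calc 18432 * ((2 : ℝ) ^ A) ^ 2 ≤ 65536 * ((2 : ℝ) ^ A) ^ 2 := by
                apply mul_le_mul_of_nonneg_right (by norm_num) (by positivity)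
            _ = (2 ^ A * 2 ^ 8) ^ 2 := by ring
            _ ≤ L ^ 2 := pow_le_pow_left₀ (by positivity) h4 2
      _ = (Y ^ 2 * (L ^ 4 / L ^ A)) ^ 2 := by ring
  have hYR : R ^ k * L ^ B ≤ Y := by
    refine le_trans ?_ hY1
    gcongr
  have harith := arith_T k c m 0 0 W a B A R L Y M D J (9 * Y * ℓ ^ 2)
    (√(2 * (Y * (1 + ℓ) ^ 4)) * √((Y / ℓ ^ A) ^ 2 * (9 * Y * ℓ ^ 2))) hc ha hB.ge hA.ge
    (by linarith) (hRL _ (by omega)) hk hYR hM1 hM2 hM3 (Nat.cast_nonneg _) hDS hJge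
    (by linarith) hQ0 hQ (by positivity) hSg
  have hT := hsecond.trans harith
  -- Chebyshev
  rw [← hz]
  obtain ⟨τ, hτ⟩ : ∃ τ : ℝ, τ = Y / (S ^ k * L ^ U1) := ⟨_, rfl⟩
  have hτ0 : 0 < τ := by rw [hτ]; positivity
  rw [← hτ]
  obtain ⟨Fs, hFs⟩ : ∃ Fs, Fs = (Icc (-(x : ℤ)) x).filter (fun t : ℤ => τ < |TT (fun n => P.eval (n : ℤ)) 0 M Y (ff z) t|) := ⟨_, rfl⟩
  rw [← hFs]
  have hch : (Fs.card : ℝ) * τ ^ 2 ≤ ∑ t ∈ Icc (-(x : ℤ)) x, TT (fun n => P.eval (n : ℤ)) 0 M Y (ff z) t ^ 2 := by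
    calc (Fs.card : ℝ) * τ ^ 2 = ∑ t ∈ Fs, τ ^ 2 := by rw [sum_const, nsmul_eq_mul]
      _ ≤ ∑ t ∈ Fs, TT (fun n => P.eval (n : ℤ)) 0 M Y (ff z) t ^ 2 := by
          refine sum_le_sum fun t ht => ?_
          rw [hFs, mem_filter] at ht
          rw [← sq_abs (TT _ 0 M Y (ff z) t)]
          exact pow_le_pow_left₀ hτ0.le ht.2.le 2
      _ ≤ _ := by
          rw [hFs]
          exact sum_le_sum_of_subset_of_nonneg (filter_subset _ _) (fun _ _ _ => sq_nonneg _)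
  have h6 : (Fs.card : ℝ) * τ ^ 2 ≤ (Y ^ 2 * (R / R ^ k)) / L ^ W := hch.trans hT
  rw [← le_div_iff₀ (by positivity)] at h6
  refine h6.trans (le_of_eq ?_)
  subst hk2
  rw [hτ, hW, ← hSp, hR]
  have := (hLp0 U1).ne'
  have := (hLp0 U2).ne'
  have := (hLp0 κ).ne'
  have := hS0.ne'
  rw [pow_add L, two_mul, pow_add L, pow_add L]
  field_simp

end Pool.Agent.TH204.TP
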