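import Pool.Agent.TH204.TP.P1
import Pool.Agent.TH204.WR.W8

/-!
Primes in a monotone window.
-/

set_option autoImplicit false

namespace Pool.Agent.TH204.TP

open Finset Polynomial
open Pool.Agent.H373R2.T7 (pz Vz lamz mem_pz Vz_ge)
open Pool.Agent.TH892.SW (abel_anti wt wt_nonneg wt_anti wt_le ff ffn lamz_nonneg Vz_pos)
open Pool.Agent.TH204.WR (vN rho hh hh_nonneg model ff_eq TT cutf)

theorem win_mono : ∃ C1 y0 : ℕ, 1 ≤ C1 ∧ 2 ≤ y0 ∧ ∀ (F : ℤ[X]) (t : ℤ), F.natDegree ≤ 3 →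
    ∀ b : ℕ, C1 ≤ b → ∀ z : ℕ, y0 ≤ z → (∀ p ∈ pz z, rho F t p < p) →
    ∀ m n2 : ℕ, m < n2 → (∀ i ∈ Ioc m n2, 2 ≤ F.eval (i : ℤ) + t) →
    (∀ i : ℕ, m < i → i < n2 → F.eval (i : ℤ) ≤ F.eval ((i + 1 : ℕ) : ℤ)) →
    |(((Ioc m n2).filter (fun i => (vN F t i).Prime)).card : ℝ) - hh F t z * ∑ i ∈ Ioc m n2, wt (vN F t i)| ≤
      |∑ i ∈ Ioc m n2, ff z (F.eval (i : ℤ) + t)| +
      2 * (1 / 2 : ℝ) ^ b * hh F t z * ∑ i ∈ Ioc m n2, wt (vN F t i) + 9 * (z : ℝ) ^ (C1 * b) * hh F t z := by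
  obtain ⟨C1, y0, hC1, hy0, h⟩ := model 3 (by norm_num)
  refine ⟨C1, y0, hC1, hy0, fun F t hF b hb z hz hrho m n2 h12 hv hmono => ?_⟩
  have hH := hh_nonneg F t z (by omega)
  obtain ⟨δ, hδ⟩ : ∃ δ : ℝ, δ = 2 * (1 / 2 : ℝ) ^ b * hh F t z := ⟨_, rfl⟩
  obtain ⟨R, hR⟩ : ∃ R : ℝ, R = 3 * (z : ℝ) ^ (C1 * b) * hh F t z := ⟨_, rfl⟩
  have hδ0 : 0 ≤ δ := by rw [hδ]; positivity
  have hR0 : 0 ≤ R := by rw [hR]; positivity
  have hvn : ∀ i, m < i → i ≤ n2 → 2 ≤ vN F t i ∧ (vN F t i : ℤ) = F.eval (i : ℤ) + t := by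
    intro i hi hi2
    have h3 := hv i (mem_Ioc.2 ⟨hi, hi2⟩)
    unfold vN
    constructor <;> omega
  have hw32 : ∀ i, m < i → i ≤ n2 → wt (vN F t i) ≤ 3 / 2 := fun i hi hi2 => wt_le (hvn i hi hi2).1
  have hmodel : |∑ i ∈ Ioc m n2, wt (vN F t i) * (lamz z (vN F t i) - hh F t z)| ≤
      δ * ∑ i ∈ Ioc m n2, wt (vN F t i) + 3 / 2 * R := by
    refine (abel_anti (fun i => wt (vN F t i)) (fun i => lamz z (vN F t i) - hh F t z) m n2 (by omega)
        (fun i => wt_nonneg _) ?_ δ R hδ0 hR0 (fun i h2 _ => by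
          rw [hδ, hR]
          exact h F t hF b hb z hz hrho m i h2)).trans ?_
    · intro i h2 h3
      apply wt_anti (hvn i h2 (by omega)).1
      have h4 := hmono i h2 (by omega)
      have h5 := (hvn i h2 (by omega)).2
      have h6 := (hvn (i + 1) (by omega) (by omega)).2
      omega
    · have := mul_le_mul_of_nonneg_left (hw32 (m + 1) (by omega) (by omega)) hR0
      linarith
  have e : (((Ioc m n2).filter (fun i => (vN F t i).Prime)).card : ℝ) - hh F t z * ∑ i ∈ Ioc m n2, wt (vN F t i) =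
      ∑ i ∈ Ioc m n2, ff z (F.eval (i : ℤ) + t) + ∑ i ∈ Ioc m n2, wt (vN F t i) * (lamz z (vN F t i) - hh F t z) := by
    rw [← sum_add_distrib, card_filter]
    push_cast
    rw [mul_sum, ← sum_sub_distrib]
    refine sum_congr rfl fun i hi => ?_
    rw [ff_eq F t z i (hv i hi)]
    ring
  rw [e]
  refine (abs_add_le _ _).trans ?_
  rw [← hδ]
  have e2 : 9 * (z : ℝ) ^ (C1 * b) * hh F t z = 3 * R := by rw [hR]; ring
  rw [e2]
  linarith

/-- on an increasing block the truncated sum is the sum over a window -/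
lemma TT_window (G : ℕ → ℤ) (M Y m n2 z : ℕ) (t : ℤ) (hG : ∀ i < M, G i < G (i + 1))
    (hm2 : m < n2) (h2M : n2 < M) (h0 : G m + t ≤ 1) (h1 : 2 ≤ G (m + 1) + t)
    (hY1 : G n2 + t ≤ Y) (hY2 : (Y : ℤ) < G (n2 + 1) + t) :
    TT G 0 M Y (ff z) t = ∑ i ∈ Ioc m n2, ff z (G i + t) := by
  have hmono : ∀ i j : ℕ, i ≤ j → j ≤ M → G i ≤ G j := by
    intro i j hij
    induction j, hij using Nat.le_induction with
    | base => intro _; exact le_rfl
    | succ j hj ih =>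
      intro hjM
      exact (ih (by omega)).trans (hG j (by omega)).le
  unfold TT
  symm
  have hss : Ioc m n2 ⊆ Icc 0 M := by
    intro i hi
    rw [mem_Ioc] at hi
    rw [mem_Icc]
    omega
  rw [← sum_subset hss]
  · refine sum_congr rfl fun i hi => ?_
    rw [mem_Ioc] at hi
    unfold cutf
    have h3 := hmono (m + 1) i (by omega) (by omega)
    have h4 := hmono i n2 (by omega) (by omega)
    rw [if_pos ⟨by omega, by omega⟩]
  · intro i hi hni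
    rw [mem_Icc] at hi
    rw [mem_Ioc, not_and_or] at hni
    unfold cutf
    rcases hni with h3 | h3
    · have h4 := hmono i m (by omega) (by omega)
      split_ifs with h5
      · unfold ff
        rw [if_neg (by omega)]
      · rfl
    · have h4 := hmono (n2 + 1) i (by omega) (by omega)
      rw [if_neg (by rintro ⟨_, h5⟩; omega)]

/-- the number of primes in a window of a block -/
theorem primes_block : ∃ C2 y0 : ℕ, 1 ≤ C2 ∧ 2 ≤ y0 ∧ ∀ (F : ℤ[X]) (t : ℤ), F.natDegree ≤ 3 →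
    ∀ z : ℕ, y0 ≤ z → (∀ p ∈ pz z, rho F t p < p) → ∀ M Y m n2 : ℕ, 2 ≤ Y →
    (∀ i < M, F.eval (i : ℤ) < F.eval ((i + 1 : ℕ) : ℤ)) →
    m < n2 → n2 < M → F.eval (m : ℤ) + t ≤ 1 → 2 ≤ F.eval ((m + 1 : ℕ) : ℤ) + t →
    F.eval (n2 : ℤ) + t ≤ Y → (Y : ℤ) < F.eval ((n2 + 1 : ℕ) : ℤ) + t →
    3 / 4 * (hh F t z * (((n2 : ℝ) - m) / Real.log Y)) - |TT (fun n => F.eval (n : ℤ)) 0 M Y (ff z) t| -
        9 * (z : ℝ) ^ C2 * hh F t z ≤
      (((Ioc m n2).filter (fun i => (vN F t i).Prime)).card : ℝ) := by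
  obtain ⟨C1, y0, hC1, hy0, h⟩ := win_mono
  refine ⟨C1 * (C1 + 3), y0, by nlinarith, hy0, fun F t hF z hz hrho M Y m n2 hY2 hG hm2 h2M h0 h1 hYa hYb => ?_⟩
  have hH := hh_nonneg F t z (by omega)
  have hmono : ∀ i j : ℕ, i ≤ j → j ≤ M → F.eval (i : ℤ) ≤ F.eval (j : ℤ) := by
    intro i j hij
    induction j, hij using Nat.le_induction with
    | base => intro _; exact le_rfl
    | succ j hj ih =>
      intro hjM
      exact (ih (by omega)).trans (hG j (by omega)).le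
  have hv : ∀ i ∈ Ioc m n2, 2 ≤ F.eval (i : ℤ) + t ∧ F.eval (i : ℤ) + t ≤ Y := by
    intro i hi
    rw [mem_Ioc] at hi
    have h3 := hmono (m + 1) i (by omega) (by omega)
    have h4 := hmono i n2 (by omega) (by omega)
    constructor <;> omega
  have h5 := h F t hF (C1 + 3) (by omega) z hz hrho m n2 hm2 (fun i hi => (hv i hi).1)
    (fun i hi hi2 => (hG i (by omega)).le)
  have h6 := TT_window (fun n => F.eval (n : ℤ)) M Y m n2 z t hG hm2 h2M h0 h1 hYa hYb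
  rw [← h6] at h5
  have hwt : ((n2 : ℝ) - m) / Real.log Y ≤ ∑ i ∈ Ioc m n2, wt (vN F t i) := by
    have h7 : ∑ _i ∈ Ioc m n2, 1 / Real.log (Y : ℝ) ≤ ∑ i ∈ Ioc m n2, wt (vN F t i) := by
      refine sum_le_sum fun i hi => ?_
      obtain ⟨h8, h9⟩ := hv i hi
      have h10 : wt Y ≤ wt (vN F t i) := by
        apply wt_anti
        · unfold vN; omega
        · unfold vN; omega
      exact h10
    rw [sum_const, Nat.card_Ioc, nsmul_eq_mul, Nat.cast_sub hm2.le] at h7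
    rw [div_eq_mul_one_div]
    exact h7
  obtain ⟨σ, hσ⟩ : ∃ σ, σ = ∑ i ∈ Ioc m n2, wt (vN F t i) := ⟨_, rfl⟩
  rw [← hσ] at hwt h5
  have hσ0 : 0 ≤ σ := by rw [hσ]; exact sum_nonneg fun i _ => wt_nonneg _
  have h8 : 2 * (1 / 2 : ℝ) ^ (C1 + 3) ≤ 1 / 4 := by
    have : (1 / 2 : ℝ) ^ (C1 + 3) ≤ (1 / 2 : ℝ) ^ 3 := pow_le_pow_of_le_one (by norm_num) (by norm_num) (by omega)
    linarith
  have h9 : 2 * (1 / 2 : ℝ) ^ (C1 + 3) * hh F t z * σ ≤ 1 / 4 * (hh F t z * σ) := by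
    rw [mul_assoc]
    exact mul_le_mul_of_nonneg_right h8 (mul_nonneg hH hσ0)
  have h10 : hh F t z * (((n2 : ℝ) - m) / Real.log Y) ≤ hh F t z * σ := mul_le_mul_of_nonneg_left hwt hH
  have h11 := (abs_le.1 h5).1
  linarith

end Pool.Agent.TH204.TP
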