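import Pool.Agent.TH204.TP.P2

/-!
The polynomials `m³ + D⁴ a m`, `m = c + D (n₀ + n)`.
-/

set_option autoImplicit false

namespace Pool.Agent.TH204.TP

open Finset Polynomial
open Pool.Agent.TH204.WR (rho)

/-- the cubic at `m = c + D n` -/
def vv (D : ℕ) (c a n : ℤ) : ℤ := (c + D * n) ^ 3 + (D : ℤ) ^ 4 * a * (c + D * n)

/-- the cubic in blocks -/
noncomputable def PP (D : ℕ) (c a n0 : ℤ) : ℤ[X] :=
  (C (D : ℤ) * X + C (c + D * n0)) ^ 3 + C ((D : ℤ) ^ 4 * a) * (C (D : ℤ) * X + C (c + D * n0))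

lemma PP_eval (D : ℕ) (c a n0 n : ℤ) : (PP D c a n0).eval n = vv D c a (n0 + n) := by
  unfold PP vv
  simp only [eval_add, eval_mul, eval_pow, eval_C, eval_X]
  ring

lemma PP_deg (D : ℕ) (hD : 0 < D) (c a n0 : ℤ) : (PP D c a n0).natDegree = 3 := by
  have hD0 : (D : ℤ) ≠ 0 := by exact_mod_cast hD.ne'
  have h1 : (C (D : ℤ) * X + C (c + D * n0)).natDegree = 1 := natDegree_linear hD0
  have h2 : ((C (D : ℤ) * X + C (c + D * n0)) ^ 3).natDegree = 3 := by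
    rw [natDegree_pow, h1]
  unfold PP
  rw [natDegree_add_eq_left_of_natDegree_lt]
  · exact h2
  · rw [h2]
    have h3 : (C ((D : ℤ) ^ 4 * a) * (C (D : ℤ) * X + C (c + D * n0))).natDegree ≤ 1 := by
      refine (natDegree_C_mul_le _ _).trans h1.le
    omega

lemma PP_rho (D : ℕ) (hD : 0 < D) (h6 : 6 ∣ D) (c : ℤ) (hc : IsCoprime c (D : ℤ)) (a n0 b : ℤ) (p : ℕ) (hp : p.Prime) :
    rho (PP D c a n0) ((D : ℤ) ^ 6 * b) p < p := by
  by_contra hcon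
  push Not at hcon
  have hall : ∀ x ∈ range p, (p : ℤ) ∣ (PP D c a n0).eval (x : ℤ) + (D : ℤ) ^ 6 * b := by
    unfold rho at hcon
    have h1 : (range p).filter (fun a' : ℕ => (p : ℤ) ∣ (PP D c a n0).eval (a' : ℤ) + (D : ℤ) ^ 6 * b) = range p := by
      apply eq_of_subset_of_card_le (filter_subset _ _)
      rw [card_range]
      exact hcon
    intro x hx
    rw [← h1, mem_filter] at hx
    exact hx.2
  have hpZ : Prime (p : ℤ) := Nat.prime_iff_prime_int.1 hp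
  have h0 := hall 0 (mem_range.2 hp.pos)
  rw [PP_eval] at h0
  by_cases hpD : p ∣ D
  · have hpD' : (p : ℤ) ∣ (D : ℤ) := by exact_mod_cast hpD
    have h2 : (p : ℤ) ∣ c ^ 3 := by
      have e : c ^ 3 = (vv D c a (n0 + ((0 : ℕ) : ℤ)) + (D : ℤ) ^ 6 * b) -
          D * ((3 * c ^ 2 * n0 + 3 * c * D * n0 ^ 2 + D ^ 2 * n0 ^ 3) + (D : ℤ) ^ 3 * a * (c + D * n0) + D ^ 5 * b) := by
        unfold vv
        push_cast
        ring
      rw [e]
      exact dvd_sub h0 (Dvd.dvd.mul_right hpD' _)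
    have h3 : (p : ℤ) ∣ c := hpZ.dvd_of_dvd_pow h2
    exact hpZ.not_unit (hc.isUnit_of_dvd' h3 hpD')
  · have hp2 : p ≠ 2 := by
      rintro rfl
      exact hpD ((by norm_num : 2 ∣ 6).trans h6)
    have hp3 : p ≠ 3 := by
      rintro rfl
      exact hpD ((by norm_num : 3 ∣ 6).trans h6)
    have hp4 : 3 < p := by
      have h2 := hp.two_le
      omega
    have h1 := hall 1 (mem_range.2 (by omega))
    have h2 := hall 2 (mem_range.2 (by omega))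
    have h3 := hall 3 (mem_range.2 (by omega))
    rw [PP_eval] at h1 h2 h3
    have h4 : (p : ℤ) ∣ 6 * (D : ℤ) ^ 3 := by
      have e : 6 * (D : ℤ) ^ 3 = (vv D c a (n0 + ((3 : ℕ) : ℤ)) + (D : ℤ) ^ 6 * b) -
          3 * (vv D c a (n0 + ((2 : ℕ) : ℤ)) + (D : ℤ) ^ 6 * b) +
          3 * (vv D c a (n0 + ((1 : ℕ) : ℤ)) + (D : ℤ) ^ 6 * b) -
          (vv D c a (n0 + ((0 : ℕ) : ℤ)) + (D : ℤ) ^ 6 * b) := by
        unfold vv
        push_cast
        ring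
      rw [e]
      exact dvd_sub (dvd_add (dvd_sub h3 (Dvd.dvd.mul_left h2 _)) (Dvd.dvd.mul_left h1 _)) h0
    rcases hpZ.dvd_or_dvd h4 with h5 | h5
    · apply hpD
      have : p ∣ 6 := by exact_mod_cast h5
      exact this.trans h6
    · apply hpD
      have := hpZ.dvd_of_dvd_pow h5
      exact_mod_cast this

/-- the derivative -/
def qq (D : ℕ) (c a n : ℤ) : ℤ := 3 * D * (c + D * n) ^ 2 + (D : ℤ) ^ 5 * a

lemma vv_step (D : ℕ) (c a n : ℤ) :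
    vv D c a (n + 1) - vv D c a n = qq D c a n + (3 * (D : ℤ) ^ 2 * (c + D * n) + (D : ℤ) ^ 3) := by
  unfold vv qq
  ring

lemma lin_bound (D : ℕ) (S m K : ℤ) (hDS : (D : ℤ) ≤ S) (hm : |m| ≤ K * S) (hS : 0 ≤ S) :
    |3 * (D : ℤ) ^ 2 * m + (D : ℤ) ^ 3| ≤ (3 * K + 1) * ((D : ℤ) ^ 2 * S) := by
  have hD0 : (0 : ℤ) ≤ (D : ℤ) := Int.natCast_nonneg _
  have h1 : |3 * (D : ℤ) ^ 2 * m| ≤ 3 * (D : ℤ) ^ 2 * (K * S) := by
    rw [abs_mul, abs_of_nonneg (by positivity)]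
    exact mul_le_mul_of_nonneg_left hm (by positivity)
  have h2 : |(D : ℤ) ^ 3| ≤ (D : ℤ) ^ 2 * S := by
    rw [abs_of_nonneg (by positivity), pow_succ]
    exact mul_le_mul_of_nonneg_left hDS (by positivity)
  calc _ ≤ |3 * (D : ℤ) ^ 2 * m| + |(D : ℤ) ^ 3| := abs_add_le _ _
    _ ≤ 3 * (D : ℤ) ^ 2 * (K * S) + (D : ℤ) ^ 2 * S := add_le_add h1 h2
    _ = _ := by ring

/-- upper bound for the differences -/
lemma step_le (D T : ℕ) (c a n : ℤ) (S : ℤ) (hS : S = (D : ℤ) ^ 2 * T) (hD : 1 ≤ D) (ha : |a| ≤ (T : ℤ) ^ 2)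
    (hDS : (D : ℤ) ≤ S) (hm : |c + D * n| ≤ 4 * S) :
    vv D c a (n + 1) - vv D c a n ≤ 62 * (D * S ^ 2) := by
  have hD0 : (0 : ℤ) ≤ (D : ℤ) := Int.natCast_nonneg _
  have hT0 : (0 : ℤ) ≤ (T : ℤ) := Int.natCast_nonneg _
  have hS0 : 0 ≤ S := by rw [hS]; positivity
  rw [vv_step]
  have h1 := le_of_abs_le (lin_bound D S (c + D * n) 4 hDS hm hS0)
  have h2 : (c + D * n) ^ 2 ≤ 16 * S ^ 2 := by
    have := sq_le_sq' (by linarith [(abs_le.1 hm).1]) (abs_le.1 hm).2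
    nlinarith
  have h3 : (D : ℤ) ^ 5 * a ≤ D * S ^ 2 := by
    have h4 : a ≤ (T : ℤ) ^ 2 := (abs_le.1 ha).2
    calc (D : ℤ) ^ 5 * a ≤ (D : ℤ) ^ 5 * (T : ℤ) ^ 2 := mul_le_mul_of_nonneg_left h4 (by positivity)
      _ = D * S ^ 2 := by rw [hS]; ring
  have h4 : (D : ℤ) ^ 2 * S ≤ D * S ^ 2 := by
    have : (D : ℤ) * S * D ≤ (D : ℤ) * S * S := mul_le_mul_of_nonneg_left hDS (by positivity)
    nlinarith
  have h5 : 3 * (D : ℤ) * (c + D * n) ^ 2 ≤ 3 * D * (16 * S ^ 2) := mul_le_mul_of_nonneg_left h2 (by positivity)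
  unfold qq
  nlinarith

/-- steepness near a steep point -/
lemma steep_near (D T : ℕ) (c a n n1 : ℤ) (M G : ℤ) (S : ℤ) (hD : 1 ≤ D)
    (hDS : (D : ℤ) ≤ S) (hm : |c + D * n1| ≤ 3 * S) (hM0 : 0 ≤ M) (hn : |n - n1| ≤ M) (hDM : D * M ≤ S)
    (hG1 : 21 * ((D : ℤ) ^ 2 * M * S) ≤ G) (hG2 : 13 * ((D : ℤ) ^ 2 * S) ≤ G) (hq : 3 * G < qq D c a n1) :
    G ≤ vv D c a (n + 1) - vv D c a n ∧ |c + D * n| ≤ 4 * S := by
  have hD0 : (1 : ℤ) ≤ (D : ℤ) := by exact_mod_cast hD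
  have hS0 : 0 ≤ S := by linarith
  have hd : |(c + D * n) - (c + D * n1)| ≤ D * M := by
    have : (c + D * n) - (c + D * n1) = D * (n - n1) := by ring
    rw [this, abs_mul, abs_of_nonneg (by linarith)]
    exact mul_le_mul_of_nonneg_left hn (by linarith)
  have hm4 : |c + D * n| ≤ 4 * S := by
    have h1 : |c + D * n| ≤ |(c + D * n) - (c + D * n1)| + |c + D * n1| := by
      have := abs_add_le ((c + D * n) - (c + D * n1)) (c + D * n1)
      rwa [sub_add_cancel] at this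
    linarith
  refine ⟨?_, hm4⟩
  rw [vv_step]
  have h1 := neg_le_of_abs_le (lin_bound D S (c + D * n) 4 hDS hm4 hS0)
  have h2 : |(c + D * n) + (c + D * n1)| ≤ 7 * S := by
    have := abs_add_le (c + D * n) (c + D * n1)
    linarith
  have h3 : |qq D c a n - qq D c a n1| ≤ G := by
    have e : qq D c a n - qq D c a n1 = 3 * D * (((c + D * n) - (c + D * n1)) * ((c + D * n) + (c + D * n1))) := by
      unfold qq; ring
    rw [e, abs_mul, abs_mul ((c + D * n) - (c + D * n1)), abs_of_nonneg (by positivity : (0 : ℤ) ≤ 3 * D)]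
    calc 3 * (D : ℤ) * (|(c + D * n) - (c + D * n1)| * |(c + D * n) + (c + D * n1)|) ≤ 3 * D * ((D * M) * (7 * S)) := by
          gcongr
      _ = 21 * ((D : ℤ) ^ 2 * M * S) := by ring
      _ ≤ G := hG1
  have h4 := (abs_le.1 h3).1
  linarith

end Pool.Agent.TH204.TP
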