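import Pool.Agent.TH204.TP.P3

/-!
The last sign change of a cubic and the shifts for which it is flat there.
-/

set_option autoImplicit false

namespace Pool.Agent.TH204.TP

open Finset

lemma big_pos (D T : ℕ) (a t m S : ℤ) (hS : S = (D : ℤ) ^ 2 * T) (hS1 : 1 ≤ S) (ha : |a| ≤ (T : ℤ) ^ 2)
    (ht : |t| ≤ S ^ 3) (hm : 2 * S ≤ m) : 2 ≤ m ^ 3 + (D : ℤ) ^ 4 * a * m + t := by
  have h1 : -(S ^ 2) ≤ (D : ℤ) ^ 4 * a := by
    have h2 : -((T : ℤ) ^ 2) ≤ a := (abs_le.1 ha).1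
    calc -(S ^ 2) = (D : ℤ) ^ 4 * (-((T : ℤ) ^ 2)) := by rw [hS]; ring
      _ ≤ _ := mul_le_mul_of_nonneg_left h2 (by positivity)
  have h2 : -(S ^ 2) * m ≤ (D : ℤ) ^ 4 * a * m := mul_le_mul_of_nonneg_right h1 (by linarith)
  have h3 : (2 * S) ^ 2 ≤ m ^ 2 := pow_le_pow_left₀ (by linarith) hm 2
  have h4 : 2 * S * (3 * S ^ 2) ≤ m * (m ^ 2 - S ^ 2) := by
    apply mul_le_mul hm (by linarith) (by positivity) (by linarith)
  have h5 := (abs_le.1 ht).1
  have h6 : 1 ≤ S ^ 3 := one_le_pow₀ hS1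
  nlinarith

/-- the last sign change -/
lemma last_root (D T R : ℕ) (c a t S : ℤ) (hD : 1 ≤ D) (hS : S = (D : ℤ) ^ 2 * T) (hS1 : 1 ≤ S) (ha : |a| ≤ (T : ℤ) ^ 2)
    (ht : |t| ≤ S ^ 3) (hR : (R : ℤ) = 2 * D * T + |c| + 1) (hSc : (D : ℤ) + (D + 1) * |c| ≤ S) :
    ∃ N : ℤ, -(R : ℤ) ≤ N ∧ N < R ∧ vv D c a N + t ≤ 1 ∧ 2 ≤ vv D c a (N + 1) + t ∧ |c + D * N| ≤ 3 * S := by
  classical
  have hD1 : (1 : ℤ) ≤ D := by exact_mod_cast hD
  have hc0 := abs_nonneg c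
  have hT0 : (0 : ℤ) ≤ T := Int.natCast_nonneg _
  have hDR : (D : ℤ) * R = 2 * S + D * |c| + D := by rw [hR, hS]; ring
  have hDc : |c| ≤ D * |c| := le_mul_of_one_le_left hc0 hD1
  have hc1 := neg_abs_le c
  have hc2 := le_abs_self c
  set A := (Icc (-(R : ℤ)) R).filter (fun n => vv D c a n + t ≤ 1) with hA
  have hR0 : (0 : ℤ) ≤ R := Int.natCast_nonneg _
  have hneg : -(R : ℤ) ∈ A := by
    rw [hA, mem_filter, mem_Icc]
    refine ⟨⟨le_rfl, by linarith⟩, ?_⟩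
    have h1 := big_pos D T a (-t) (-(c + D * (-(R : ℤ)))) S hS hS1 ha (by rw [abs_neg]; exact ht) (by linarith)
    unfold vv
    have e : (-(c + (D : ℤ) * (-(R : ℤ)))) ^ 3 + (D : ℤ) ^ 4 * a * (-(c + (D : ℤ) * (-(R : ℤ)))) + -t =
        -((c + (D : ℤ) * (-(R : ℤ))) ^ 3 + (D : ℤ) ^ 4 * a * (c + (D : ℤ) * (-(R : ℤ))) + t) := by ring
    rw [e] at h1
    linarith
  have hpos : (R : ℤ) ∉ A := by
    rw [hA, mem_filter]
    rintro ⟨_, h2⟩
    have h1 := big_pos D T a t (c + D * (R : ℤ)) S hS hS1 ha ht (by linarith)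
    unfold vv at h2
    linarith
  have hne : A.Nonempty := ⟨_, hneg⟩
  set N := A.max' hne with hN
  have hNA : N ∈ A := max'_mem _ _
  have hNA' := hNA
  rw [hA, mem_filter, mem_Icc] at hNA'
  have hNR : N < R := lt_of_le_of_ne hNA'.1.2 (fun h => hpos (h ▸ hNA))
  refine ⟨N, hNA'.1.1, hNR, hNA'.2, ?_, ?_⟩
  · by_contra hcon
    push Not at hcon
    have h1 : N + 1 ∈ A := by
      rw [hA, mem_filter, mem_Icc]
      refine ⟨⟨by linarith [hNA'.1.1], by linarith⟩, by linarith⟩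
    have h2 := le_max' A _ h1
    rw [← hN] at h2
    linarith
  · have h1 : |(D : ℤ) * N| ≤ D * R := by
      rw [abs_mul, abs_of_nonneg (by linarith : (0 : ℤ) ≤ D)]
      apply mul_le_mul_of_nonneg_left _ (by linarith)
      rw [abs_le]
      exact ⟨hNA'.1.1, hNA'.1.2⟩
    have h2 := abs_add_le c (D * N)
    linarith

/-- few places where the derivative is small -/
lemma flat_card (D : ℕ) (hD : 1 ≤ D) (a G K : ℤ) (hG : 0 ≤ G) :
    (((Icc (-K) K).filter (fun m : ℤ => |3 * D * m ^ 2 + (D : ℤ) ^ 5 * a| ≤ 3 * G)).card) ≤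
      2 * (Nat.sqrt (2 * G).toNat + 1) := by
  classical
  have hD1 : (1 : ℤ) ≤ D := by exact_mod_cast hD
  set s := Nat.sqrt (2 * G).toNat with hs
  have hs2 : 2 * G < ((s : ℤ) + 1) ^ 2 := by
    have h1 := Nat.lt_succ_sqrt' (2 * G).toNat
    have h2 : ((2 * G).toNat : ℤ) = 2 * G := Int.toNat_of_nonneg (by linarith)
    have h3 : (((2 * G).toNat : ℕ) : ℤ) < (((s + 1) ^ 2 : ℕ) : ℤ) := by exact_mod_cast h1
    rw [h2] at h3
    push_cast at h3
    exact h3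
  have key : ∀ B : Finset ℤ, (∀ m ∈ B, |3 * D * m ^ 2 + (D : ℤ) ^ 5 * a| ≤ 3 * G) → (∀ m ∈ B, 0 ≤ m) → #B ≤ s + 1 := by
    intro B hB hB0
    rcases B.eq_empty_or_nonempty with h0 | h0
    · rw [h0]; simp
    · set m0 := B.min' h0 with hm0
      have h1 : m0 ∈ B := min'_mem _ _
      have h2 : B ⊆ Icc m0 (m0 + s) := by
        intro m hm
        have h3 : m0 ≤ m := min'_le _ _ hm
        rw [mem_Icc]
        refine ⟨h3, ?_⟩
        by_contra hcon
        push Not at hcon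
        have h4 := abs_le.1 (hB m hm)
        have h5 := abs_le.1 (hB m0 h1)
        have h6 := hB0 m0 h1
        have h7 : (D : ℤ) * (m ^ 2 - m0 ^ 2) ≤ 2 * G := by nlinarith
        have h8 : 0 ≤ m ^ 2 - m0 ^ 2 := by nlinarith
        have h9 : m ^ 2 - m0 ^ 2 ≤ 2 * G := by nlinarith
        have h10 : ((s : ℤ) + 1) ^ 2 ≤ (m - m0) ^ 2 := by
          apply pow_le_pow_left₀ (by positivity)
          linarith
        nlinarith
      refine (card_le_card h2).trans ?_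
      rw [Int.card_Icc]
      omega
  set A := (Icc (-K) K).filter (fun m : ℤ => |3 * D * m ^ 2 + (D : ℤ) ^ 5 * a| ≤ 3 * G) with hA
  have h1 : A ⊆ A.filter (fun m => 0 ≤ m) ∪ (((A.filter (fun m => m ≤ 0)).image (fun m => -m)).image (fun m => -m)) := by
    intro m hm
    rw [mem_union]
    rcases le_total 0 m with h | h
    · left; rw [mem_filter]; exact ⟨hm, h⟩
    · right
      rw [mem_image]
      refine ⟨-m, ?_, by ring⟩
      rw [mem_image]
      exact ⟨m, by rw [mem_filter]; exact ⟨hm, h⟩, rfl⟩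
  have h2 := key (A.filter (fun m => 0 ≤ m)) (fun m hm => by
    rw [mem_filter, hA, mem_filter] at hm
    exact hm.1.2) (fun m hm => (mem_filter.1 hm).2)
  have h3 := key ((A.filter (fun m => m ≤ 0)).image (fun m => -m)) (fun m hm => by
    rw [mem_image] at hm
    obtain ⟨m', hm', rfl⟩ := hm
    rw [mem_filter, hA, mem_filter] at hm'
    rw [neg_sq]
    exact hm'.1.2) (fun m hm => by
    rw [mem_image] at hm
    obtain ⟨m', hm', rfl⟩ := hm
    have := (mem_filter.1 hm').2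
    linarith)
  have h4 := (card_le_card h1).trans (card_union_le _ _)
  have h5 := card_image_le (s := (A.filter (fun m => m ≤ 0)).image (fun m => -m)) (f := fun m => -m)
  omega

/-- the flat shifts -/
noncomputable def flat (D : ℕ) (a G K : ℤ) : Finset ℤ :=
  (((Icc (-K) K).filter (fun m : ℤ => |3 * D * m ^ 2 + (D : ℤ) ^ 5 * a| ≤ 3 * G)) ×ˢ (Icc (-(4 * G)) 1)).image
    (fun p => p.2 - (p.1 ^ 3 + (D : ℤ) ^ 4 * a * p.1))

lemma flat_le (D : ℕ) (hD : 1 ≤ D) (a G K : ℤ) (hG : 0 ≤ G) :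
    #(flat D a G K) ≤ 2 * (Nat.sqrt (2 * G).toNat + 1) * (4 * G + 2).toNat := by
  unfold flat
  refine card_image_le.trans ?_
  rw [card_product, Int.card_Icc]
  apply Nat.mul_le_mul (flat_card D hD a G K hG)
  apply le_of_eq
  congr 1
  ring

/-- a shift which is not flat is steep at the last sign change -/
lemma not_flat (D : ℕ) (c a t N G S : ℤ) (hD : 1 ≤ D) (hDS : (D : ℤ) ≤ S) (hm : |c + D * N| ≤ 3 * S)
    (hG2 : 13 * ((D : ℤ) ^ 2 * S) ≤ G) (h1 : vv D c a N + t ≤ 1) (h2 : 2 ≤ vv D c a (N + 1) + t)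
    (hf : t ∉ flat D a G (3 * S)) : 3 * G < qq D c a N := by
  by_contra hcon
  push Not at hcon
  apply hf
  have hD1 : (1 : ℤ) ≤ D := by exact_mod_cast hD
  have hS0 : 0 ≤ S := by linarith
  have h3 := vv_step D c a N
  have h4 := abs_le.1 (lin_bound D S (c + D * N) 3 hDS hm hS0)
  have h5 : 0 ≤ (D : ℤ) ^ 2 * S := by positivity
  have h1D : 1 ≤ (D : ℤ) ^ 2 * S := by
    have : (1 : ℤ) ≤ (D : ℤ) ^ 2 := one_le_pow₀ hD1
    nlinarith
  unfold flat
  rw [mem_image]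
  refine ⟨(c + D * N, vv D c a N + t), ?_, ?_⟩
  · rw [mem_product, mem_filter, mem_Icc, mem_Icc]
    refine ⟨⟨abs_le.1 hm, ?_⟩, ?_, h1⟩
    · have : 3 * (D : ℤ) * (c + D * N) ^ 2 + (D : ℤ) ^ 5 * a = qq D c a N := rfl
      simp only [this]
      rw [abs_le]
      constructor <;> linarith
    · show -(4 * G) ≤ vv D c a N + t
      linarith
  · show vv D c a N + t - ((c + D * N) ^ 3 + (D : ℤ) ^ 4 * a * (c + D * N)) = t
    unfold vv
    ring

end Pool.Agent.TH204.TP
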