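import Pool.Agent.TH204.TP.P4

/-!
Primes represented in one block.
-/

set_option autoImplicit false

namespace Pool.Agent.TH204.TP

open Finset Polynomial
open Pool.Agent.H373R2.T7 (pz mem_pz)
open Pool.Agent.TH892.SW (ff)
open Pool.Agent.TH204.WR (vN rho hh hh_nonneg TT)

/-- the primes up to `Y` of the form `m³ + D⁴ a m + D⁶ b`, `m ≡ c` modulo `D` -/
def PS (D : ℕ) (c a b : ℤ) (Y : ℕ) : Set ℕ :=
  {p : ℕ | p.Prime ∧ p ≤ Y ∧ ∃ n : ℤ, (p : ℤ) = vv D c a n + (D : ℤ) ^ 6 * b}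

lemma PS_fin (D : ℕ) (c a b : ℤ) (Y : ℕ) : (PS D c a b Y).Finite :=
  (Set.finite_Iic Y).subset fun _ hp => hp.2.1

theorem block_primes : ∃ C2 y0 : ℕ, 1 ≤ C2 ∧ 2 ≤ y0 ∧ ∀ (D T R M G S Y z J H : ℕ) (c a b : ℤ) (τ : ℝ),
    0 < D → 6 ∣ D → IsCoprime c (D : ℤ) → |a| ≤ (T : ℤ) ^ 2 → |b| ≤ (T : ℤ) ^ 3 → (S : ℤ) = (D : ℤ) ^ 2 * T →
    1 ≤ S → (R : ℤ) = 2 * D * T + |c| + 1 → (D : ℤ) + (D + 1) * |c| ≤ S →
    D * M ≤ S → 21 * (D ^ 2 * M * S) ≤ G → 13 * (D ^ 2 * S) ≤ G → 4 ≤ M → H = M / 2 → 2 * R ≤ J * H →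
    124 * (D * S ^ 2) + 2 ≤ Y → Y < H * G → y0 ≤ z →
    (D : ℤ) ^ 6 * b ∉ flat D a G (3 * S) →
    (∀ j : ℕ, j ≤ J → (∀ n : ℕ, n < M → (G : ℤ) ≤ vv D c a (-(R : ℤ) + j * H + n + 1) - vv D c a (-(R : ℤ) + j * H + n)) →
      |TT (fun n => (PP D c a (-(R : ℤ) + j * H)).eval (n : ℤ)) 0 M Y (ff z) ((D : ℤ) ^ 6 * b)| ≤ τ) →
    ∃ n0 : ℤ, 3 / 4 * (hh (PP D c a n0) ((D : ℤ) ^ 6 * b) z * ((Y : ℝ) / (124 * (D * (S : ℝ) ^ 2)) / Real.log Y)) - τ -
      9 * (z : ℝ) ^ C2 * hh (PP D c a n0) ((D : ℤ) ^ 6 * b) z ≤ ((PS D c a b Y).ncard : ℝ) := by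
  obtain ⟨C2, y0, hC2, hy0, hmain⟩ := primes_block
  refine ⟨C2, y0, hC2, hy0, fun D T R M G S Y z J H c a b τ hD h6 hc ha hb hS hS1 hR hSc hDM hG1 hG2 hM4 hH hJ hY1 hY2 hz hflat hTT => ?_⟩
  have hD1 : (1 : ℤ) ≤ D := by exact_mod_cast hD
  have hSZ1 : (1 : ℤ) ≤ S := by exact_mod_cast hS1
  have hDS : (D : ℤ) ≤ S := by
    have h1 : 0 ≤ ((D : ℤ) + 1) * |c| := by positivity
    linarith
  obtain ⟨t, ht⟩ : ∃ t, t = (D : ℤ) ^ 6 * b := ⟨_, rfl⟩
  rw [← ht] at hflat hTT ⊢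
  have htS : |t| ≤ (S : ℤ) ^ 3 := by
    rw [ht, abs_mul, abs_of_nonneg (by positivity), hS]
    calc (D : ℤ) ^ 6 * |b| ≤ (D : ℤ) ^ 6 * (T : ℤ) ^ 3 := mul_le_mul_of_nonneg_left hb (by positivity)
      _ = _ := by ring
  have hG1' : 21 * ((D : ℤ) ^ 2 * M * S) ≤ G := by exact_mod_cast hG1
  have hG2' : 13 * ((D : ℤ) ^ 2 * S) ≤ G := by exact_mod_cast hG2
  have hDM' : (D : ℤ) * M ≤ S := by exact_mod_cast hDM
  obtain ⟨N, hN1, hN2, hN3, hN4, hN5⟩ := last_root D T R c a t S hD hS hSZ1 ha htS hR hSc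
  have hq := not_flat D c a t N G S hD hDS hN5 hG2' hN3 hN4 hflat
  have hH2 : 2 ≤ H := by omega
  have hHM : 2 * H ≤ M := by omega
  obtain ⟨j, hj⟩ : ∃ j, j = (N + R).toNat / H := ⟨_, rfl⟩
  obtain ⟨n0, hn0⟩ : ∃ n0 : ℤ, n0 = -(R : ℤ) + j * H := ⟨_, rfl⟩
  have hNR : ((N + R).toNat : ℤ) = N + R := Int.toNat_of_nonneg (by linarith)
  have hj1 : j * H ≤ (N + R).toNat := by rw [hj]; exact Nat.div_mul_le_self _ _
  have hj2 : (N + R).toNat < (j + 1) * H := by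
    rw [hj]
    exact Nat.lt_mul_of_div_lt (Nat.lt_succ_self _) (by omega)
  have hj1' : (j : ℤ) * H ≤ N + R := by rw [← hNR]; exact_mod_cast hj1
  have hj2' : N + R < ((j : ℤ) + 1) * H := by rw [← hNR]; exact_mod_cast hj2
  have hjJ : j ≤ J := by
    by_contra hcon
    push Not at hcon
    have h1 : J * H ≤ j * H := Nat.mul_le_mul_right H hcon.le
    have h2 : (2 : ℤ) * R ≤ N + R := by
      have : (2 * R : ℕ) ≤ j * H := hJ.trans h1
      have h3 : ((2 * R : ℕ) : ℤ) ≤ ((j * H : ℕ) : ℤ) := by exact_mod_cast this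
      push_cast at h3
      linarith
    linarith
  have hn0N : n0 ≤ N := by rw [hn0]; linarith
  have hNn0 : N < n0 + H := by rw [hn0]; linarith
  have hsteep : ∀ n : ℕ, n < M → (G : ℤ) ≤ vv D c a (n0 + n + 1) - vv D c a (n0 + n) ∧ |c + D * (n0 + n)| ≤ 4 * S := by
    intro n hn
    have hnM : (n : ℤ) < M := by exact_mod_cast hn
    have hHM' : 2 * (H : ℤ) ≤ M := by exact_mod_cast hHM
    have hn0' : (0 : ℤ) ≤ n := Int.natCast_nonneg _
    exact steep_near D T c a (n0 + n) N M G S hD hDS hN5 (by linarith) (by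
      rw [abs_le]
      constructor <;> linarith) hDM' hG1' hG2' hq
  have hTTj := hTT j hjJ (by
    intro n hn
    rw [← hn0]
    exact (hsteep n hn).1)
  rw [← hn0] at hTTj
  refine ⟨n0, ?_⟩
  obtain ⟨P, hP⟩ : ∃ P, P = PP D c a n0 := ⟨_, rfl⟩
  have hPe : ∀ n : ℤ, P.eval n = vv D c a (n0 + n) := by
    intro n
    rw [hP, PP_eval]
  rw [← hP] at hTTj ⊢
  have hG0 : 0 < G := by
    have : 0 < D ^ 2 * S := by positivity
    omega
  have hstep : ∀ i < M, (G : ℤ) ≤ P.eval ((i + 1 : ℕ) : ℤ) - P.eval (i : ℤ) ∧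
      P.eval ((i + 1 : ℕ) : ℤ) - P.eval (i : ℤ) ≤ 62 * (D * (S : ℤ) ^ 2) := by
    intro i hi
    obtain ⟨h1, h2⟩ := hsteep i hi
    have h3 := step_le D T c a (n0 + i) S hS hD ha hDS h2
    rw [hPe, hPe]
    have e : n0 + ((i + 1 : ℕ) : ℤ) = n0 + i + 1 := by push_cast; ring
    rw [e]
    exact ⟨h1, h3⟩
  have hlow : ∀ i j : ℕ, i ≤ j → j ≤ M → ((j : ℤ) - i) * G ≤ P.eval (j : ℤ) - P.eval (i : ℤ) := by
    intro i j hij
    induction j, hij using Nat.le_induction with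
    | base => intro _; simp
    | succ j hj ih =>
      intro hjM
      have h1 := ih (by omega)
      have h2 := (hstep j (by omega)).1
      push_cast at h2 ⊢
      have e : ((j : ℤ) + 1 - i) * G = (j - i) * G + G := by ring
      rw [e]
      linarith
  have hupp : ∀ i j : ℕ, i ≤ j → j ≤ M → P.eval (j : ℤ) - P.eval (i : ℤ) ≤ ((j : ℤ) - i) * (62 * (D * (S : ℤ) ^ 2)) := by
    intro i j hij
    induction j, hij using Nat.le_induction with
    | base => intro _; simp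
    | succ j hj ih =>
      intro hjM
      have h1 := ih (by omega)
      have h2 := (hstep j (by omega)).2
      push_cast at h2 ⊢
      have e : ((j : ℤ) + 1 - i) * (62 * (D * (S : ℤ) ^ 2)) = (j - i) * (62 * (D * (S : ℤ) ^ 2)) + 62 * (D * (S : ℤ) ^ 2) := by ring
      rw [e]
      linarith
  obtain ⟨m, hm⟩ : ∃ m, m = (N - n0).toNat := ⟨_, rfl⟩
  have hmZ : (m : ℤ) = N - n0 := by rw [hm]; exact Int.toNat_of_nonneg (by linarith)
  have hmH : m < H := by
    have : (m : ℤ) < H := by linarith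
    exact_mod_cast this
  have hfm : P.eval (m : ℤ) + t ≤ 1 := by
    rw [hPe, hmZ]
    have : n0 + (N - n0) = N := by ring
    rw [this]
    exact hN3
  have hfm1 : 2 ≤ P.eval ((m + 1 : ℕ) : ℤ) + t := by
    rw [hPe]
    have : n0 + ((m + 1 : ℕ) : ℤ) = N + 1 := by push_cast; linarith
    rw [this]
    exact hN4
  have hYZ1 : 124 * ((D : ℤ) * (S : ℤ) ^ 2) + 2 ≤ Y := by exact_mod_cast hY1
  have hDS2 : 0 < (D : ℤ) * (S : ℤ) ^ 2 := by positivity
  have hfM : (Y : ℤ) < P.eval (M : ℤ) + t := by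
    have h1 := hlow (m + 1) M (by omega) le_rfl
    have h2 : (H : ℤ) ≤ (M : ℤ) - ((m + 1 : ℕ) : ℤ) := by
      push_cast
      have h3 : (m : ℤ) + 1 ≤ H := by exact_mod_cast hmH
      have h4 : 2 * (H : ℤ) ≤ M := by exact_mod_cast hHM
      linarith
    have h3 : (H : ℤ) * G ≤ ((M : ℤ) - ((m + 1 : ℕ) : ℤ)) * G := mul_le_mul_of_nonneg_right h2 (Int.natCast_nonneg _)
    have h4 : (Y : ℤ) < (H : ℤ) * G := by exact_mod_cast hY2
    linarith
  -- the end of the window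
  set A := (range M).filter (fun n : ℕ => P.eval (n : ℤ) + t ≤ Y) with hA
  have hm1A : m + 1 ∈ A := by
    rw [hA, mem_filter, mem_range]
    refine ⟨by omega, ?_⟩
    have := (hstep m (by omega)).2
    linarith
  set n2 := A.max' ⟨_, hm1A⟩ with hn2
  have hn2A : n2 ∈ A := max'_mem _ _
  have hn2m : m + 1 ≤ n2 := le_max' _ _ hm1A
  have hn2A' := hn2A
  rw [hA, mem_filter, mem_range] at hn2A'
  have hn2Y : (Y : ℤ) < P.eval ((n2 + 1 : ℕ) : ℤ) + t := by
    rcases Nat.lt_or_ge (n2 + 1) M with h | h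
    · by_contra hcon
      push Not at hcon
      have h1 : n2 + 1 ∈ A := by
        rw [hA, mem_filter, mem_range]
        exact ⟨h, hcon⟩
      have h2 := le_max' A _ h1
      rw [← hn2] at h2
      omega
    · have : n2 + 1 = M := by omega
      rw [this]
      exact hfM
  have hlen : (Y : ℝ) / (124 * (D * (S : ℝ) ^ 2)) ≤ (n2 : ℝ) - m := by
    have h1 := hupp m (n2 + 1) (by omega) (by omega)
    have h2 : (Y : ℤ) ≤ 2 * (((n2 : ℤ) - m) * (62 * (D * (S : ℤ) ^ 2))) := by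
      push_cast at h1 hn2Y
      have e : ((n2 : ℤ) + 1 - m) * (62 * (D * (S : ℤ) ^ 2)) = ((n2 : ℤ) - m) * (62 * (D * (S : ℤ) ^ 2)) + 62 * (D * (S : ℤ) ^ 2) := by ring
      rw [e] at h1
      linarith
    have h3 : (Y : ℝ) ≤ 2 * (((n2 : ℝ) - m) * (62 * (D * (S : ℝ) ^ 2))) := by exact_mod_cast h2
    rw [div_le_iff₀ (by
      have : (0 : ℝ) < (D : ℝ) * (S : ℝ) ^ 2 := by exact_mod_cast hDS2
      linarith)]
    linarith
  have hmain' := hmain P t (by rw [hP, PP_deg D hD]) z hz (fun p hp => by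
    rw [hP, ht]
    exact PP_rho D hD h6 c hc a n0 b p (mem_pz.1 hp).2) M Y m n2 (by
      have : 0 < D * S ^ 2 := by positivity
      omega) (fun i hi => by
      have h1 := (hstep i hi).1
      have h2 : (0 : ℤ) < G := by exact_mod_cast hG0
      linarith) (by omega) hn2A'.1 hfm hfm1 hn2A'.2 hn2Y
  have hlogY : 0 ≤ Real.log Y := Real.log_natCast_nonneg Y
  have hHH := hh_nonneg P t z (by omega)
  -- the primes
  have hmono : ∀ i j : ℕ, i < j → j ≤ M → P.eval (i : ℤ) < P.eval (j : ℤ) := by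
    intro i j hij hjM
    have h1 := hlow i j hij.le hjM
    have h2 : (1 : ℤ) ≤ (j : ℤ) - i := by
      have : (i : ℤ) + 1 ≤ j := by exact_mod_cast hij
      linarith
    have h3 : (0 : ℤ) < G := by exact_mod_cast hG0
    have h4 : 1 * (G : ℤ) ≤ ((j : ℤ) - i) * G := mul_le_mul_of_nonneg_right h2 h3.le
    linarith
  have hval : ∀ i ∈ Ioc m n2, 2 ≤ P.eval (i : ℤ) + t ∧ P.eval (i : ℤ) + t ≤ Y := by
    intro i hi
    rw [mem_Ioc] at hi
    constructor
    · rcases Nat.lt_or_ge (m + 1) i with h | h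
      · have := hmono (m + 1) i h (by omega)
        linarith
      · have : i = m + 1 := by omega
        rw [this]
        exact hfm1
    · rcases Nat.lt_or_ge i n2 with h | h
      · have := hmono i n2 h (by omega)
        linarith [hn2A'.2]
      · have : i = n2 := by omega
        rw [this]
        exact hn2A'.2
  have hinj : Set.InjOn (vN P t) (((Ioc m n2).filter (fun i => (vN P t i).Prime) : Finset ℕ) : Set ℕ) := by
    intro i hi j hj hij
    rw [mem_coe, mem_filter] at hi hj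
    have h1 := hval i hi.1
    have h2 := hval j hj.1
    unfold vN at hij
    have h3 : P.eval (i : ℤ) = P.eval (j : ℤ) := by omega
    rw [mem_Ioc] at hi hj
    rcases lt_trichotomy i j with h | h | h
    · have := hmono i j h (by omega)
      omega
    · exact h
    · have := hmono j i h (by omega)
      omega
  have hsub : ((((Ioc m n2).filter (fun i => (vN P t i).Prime)).image (vN P t) : Finset ℕ) : Set ℕ) ⊆ PS D c a b Y := by
    intro p hp
    rw [mem_coe, mem_image] at hp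
    obtain ⟨i, hi, rfl⟩ := hp
    rw [mem_filter] at hi
    have h1 := hval i hi.1
    refine ⟨hi.2, ?_, n0 + i, ?_⟩
    · unfold vN
      omega
    · rw [← ht, ← hPe]
      unfold vN
      omega
  have hcard := Set.ncard_le_ncard hsub (PS_fin D c a b Y)
  rw [Set.ncard_coe_finset, card_image_of_injOn hinj] at hcard
  have hcard' : (((Ioc m n2).filter (fun i => (vN P t i).Prime)).card : ℝ) ≤ ((PS D c a b Y).ncard : ℝ) := by
    exact_mod_cast hcard
  have h7 : hh P t z * ((Y : ℝ) / (124 * (D * (S : ℝ) ^ 2)) / Real.log Y) ≤ hh P t z * (((n2 : ℝ) - m) / Real.log Y) :=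
    mul_le_mul_of_nonneg_left (div_le_div_of_nonneg_right hlen hlogY) hHH
  linarith

end Pool.Agent.TH204.TP
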